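import Pool.Agent.Helper12.SF.Defs

/-!
# Part CRT
-/

set_option autoImplicit false

namespace Pool.Agent.Helper10.SF.CRT

open Pool.Agent.Helper12.SF

lemma crt {P h : ℕ} {U Q : Finset ℕ} (hP : 0 < P)
    (hQ : ∀ p ∈ Q, p.Prime ∧ Nat.Coprime P p ∧ h < p ^ 2) (e : ↥U ≃ ↥Q) :
    ∃ r : ℕ, r < P * (∏ p ∈ Q, p) ^ 2 ∧ P ∣ r ∧ ∀ i : ↥U, ((e i : ℕ)) ^ 2 ∣ r + (i : ℕ) := by
  classical
  let s : Option ↥Q → ℕ := fun o => o.elim P (fun p => (p : ℕ) ^ 2)
  let a : Option ↥Q → ℕ := fun o => o.elim 0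
    (fun p => ((p : ℕ) ^ 2 - 1) * ((e.symm p : ↥U) : ℕ))
  have hs : ∀ i ∈ (Finset.univ : Finset (Option ↥Q)), s i ≠ 0 := by
    intro i _
    cases i with
    | none => exact hP.ne'
    | some p => exact pow_ne_zero _ (hQ p p.2).1.ne_zero
  have pp : Set.Pairwise ((Finset.univ : Finset (Option ↥Q)) : Set (Option ↥Q))
      (Function.onFun Nat.Coprime s) := by
    intro x _ y _ hxy
    unfold Function.onFun
    cases x with
    | none =>
      cases y with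
      | none => exact absurd rfl hxy
      | some q => exact Nat.Coprime.pow_right 2 (hQ q q.2).2.1
    | some p =>
      cases y with
      | none => exact (Nat.Coprime.pow_right 2 (hQ p p.2).2.1).symm
      | some q =>
        apply Nat.Coprime.pow
        rw [Nat.coprime_primes (hQ p p.2).1 (hQ q q.2).1]
        intro h
        exact hxy (congrArg some (Subtype.ext h))
  have hprod : ∏ i ∈ (Finset.univ : Finset (Option ↥Q)), s i = P * (∏ p ∈ Q, p) ^ 2 := by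
    rw [Fintype.prod_option]
    congr 1
    simp only [s, Option.elim]
    rw [Finset.prod_pow, Finset.prod_coe_sort Q (fun p => p)]
  obtain ⟨k, hk⟩ := Nat.chineseRemainderOfFinset a s Finset.univ hs pp
  refine ⟨k % (P * (∏ p ∈ Q, p) ^ 2), Nat.mod_lt _ ?_, ?_, ?_⟩
  · rw [← hprod]
    exact Finset.prod_pos (fun i hi => Nat.pos_of_ne_zero (hs i hi))
  · have h1 := hk none (Finset.mem_univ _)
    have h2 : k ≡ 0 [MOD P] := h1
    have h3 : P ∣ k := (Nat.modEq_zero_iff_dvd).1 h2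
    exact (Nat.dvd_mod_iff (Dvd.intro _ rfl)).2 h3
  · intro i
    have h1 := hk (some (e i)) (Finset.mem_univ _)
    have h2 : k ≡ (((e i : ℕ)) ^ 2 - 1) * (i : ℕ) [MOD ((e i : ℕ)) ^ 2] := by
      have : a (some (e i)) = (((e i : ℕ)) ^ 2 - 1) * (i : ℕ) := by
        simp only [a, Option.elim, Equiv.symm_apply_apply]
      rw [← this]
      exact h1
    have hdiv : ((e i : ℕ)) ^ 2 ∣ P * (∏ p ∈ Q, p) ^ 2 := by
      apply Dvd.dvd.mul_left
      exact pow_dvd_pow_of_dvd (Finset.dvd_prod_of_mem _ (e i).2) 2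
    have h3 : k % (P * (∏ p ∈ Q, p) ^ 2) ≡ k [MOD ((e i : ℕ)) ^ 2] :=
      (Nat.mod_modEq k _).of_dvd hdiv
    have hpos : 1 ≤ ((e i : ℕ)) ^ 2 := Nat.one_le_pow _ _ (hQ _ (e i).2).1.pos
    rw [← Nat.modEq_zero_iff_dvd]
    calc k % (P * (∏ p ∈ Q, p) ^ 2) + (i : ℕ)
        ≡ (((e i : ℕ)) ^ 2 - 1) * (i : ℕ) + (i : ℕ) [MOD ((e i : ℕ)) ^ 2] :=
          (h3.trans h2).add_right _
      _ = ((e i : ℕ)) ^ 2 * (i : ℕ) := by
          rw [← Nat.succ_mul, Nat.succ_eq_add_one, Nat.sub_add_cancel hpos]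
      _ ≡ 0 [MOD ((e i : ℕ)) ^ 2] := (Nat.modEq_zero_iff_dvd).2 (Dvd.intro _ rfl)

theorem main : S_CRT := by
  classical
  intro P h N U Q hP hU hcard hQ
  choose r hr1 hr2 hr3 using fun e : ↥U ≃ ↥Q => crt hP hQ e
  set M := P * (∏ p ∈ Q, p) ^ 2 with hM
  have hMpos : 0 < M := by
    apply Nat.mul_pos hP
    exact Nat.pow_pos (Finset.prod_pos (fun p hp => (hQ p hp).1.pos))
  have huniv : (Q.card).factorial * (N / M) =
      (Finset.univ : Finset ((↥U ≃ ↥Q) × Fin (N / M))).card := by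
    rw [Finset.card_univ, Fintype.card_prod, Fintype.card_fin]
    congr 1
    have he : Fintype.card ↥U = Fintype.card ↥Q := by simp [hcard]
    rw [Fintype.card_equiv (Fintype.equivOfCardEq he)]
    simp [hcard]
  rw [huniv]
  apply Finset.card_le_card_of_injOn (fun x => r x.1 + (x.2 : ℕ) * M)
  · rintro ⟨e, t⟩ _
    rw [Finset.mem_coe, Finset.mem_filter, Finset.mem_range]
    have ht : (t : ℕ) + 1 ≤ N / M := t.2
    refine ⟨?_, ?_, ?_⟩
    · calc r e + (t : ℕ) * M < M + (t : ℕ) * M := Nat.add_lt_add_right (hr1 e) _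
        _ = ((t : ℕ) + 1) * M := by ring
        _ ≤ (N / M) * M := Nat.mul_le_mul_right _ ht
        _ ≤ N := Nat.div_mul_le_self N M
    · exact dvd_add (hr2 e) (Dvd.dvd.mul_left (Dvd.intro _ rfl) _)
    · intro i hi
      refine ⟨e ⟨i, hi⟩, (e ⟨i, hi⟩).2, ?_⟩
      have h1 : ((e ⟨i, hi⟩ : ℕ)) ^ 2 ∣ M := by
        apply Dvd.dvd.mul_left
        exact pow_dvd_pow_of_dvd (Finset.dvd_prod_of_mem _ (e ⟨i, hi⟩).2) 2
      have h2 := hr3 e ⟨i, hi⟩
      have h3 : r e + (t : ℕ) * M + i = (r e + i) + (t : ℕ) * M := by ring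
      simp only
      rw [h3]
      exact dvd_add h2 (Dvd.dvd.mul_left h1 _)
  · rintro ⟨e, t⟩ _ ⟨e', t'⟩ _ heq
    simp only at heq
    have hdiv : ∀ (f : ↥U ≃ ↥Q) (s : ℕ) (p : ↥Q),
        ((p : ℕ)) ^ 2 ∣ r f + s * M + ((f.symm p : ↥U) : ℕ) := by
      intro f s p
      have h1 : ((p : ℕ)) ^ 2 ∣ M := by
        apply Dvd.dvd.mul_left
        exact pow_dvd_pow_of_dvd (Finset.dvd_prod_of_mem _ p.2) 2
      have h2 := hr3 f (f.symm p)
      rw [Equiv.apply_symm_apply] at h2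
      have h3 : r f + s * M + ((f.symm p : ↥U) : ℕ) = (r f + ((f.symm p : ↥U) : ℕ)) + s * M := by
        ring
      rw [h3]
      exact dvd_add h2 (Dvd.dvd.mul_left h1 _)
    have hee : e = e' := by
      rw [← Equiv.symm_bijective.injective.eq_iff]
      ext p
      have h1 := hdiv e t p
      have h2 := hdiv e' t' p
      rw [← heq] at h2
      have hi := Finset.mem_Icc.1 (hU (e.symm p).2)
      have hi' := Finset.mem_Icc.1 (hU (e'.symm p).2)
      have hp := (hQ p p.2).2.2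
      have h3 : ((e.symm p : ↥U) : ℕ) ≡ ((e'.symm p : ↥U) : ℕ) [MOD ((p : ℕ)) ^ 2] := by
        have h4 : (r e + (t : ℕ) * M) + ((e.symm p : ↥U) : ℕ) ≡
            (r e + (t : ℕ) * M) + ((e'.symm p : ↥U) : ℕ) [MOD ((p : ℕ)) ^ 2] :=
          ((Nat.modEq_zero_iff_dvd).2 h1).trans ((Nat.modEq_zero_iff_dvd).2 h2).symm
        exact Nat.ModEq.add_left_cancel' _ h4
      exact Nat.ModEq.eq_of_lt_of_lt h3 (lt_of_le_of_lt hi.2 hp) (lt_of_le_of_lt hi'.2 hp)
    subst hee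
    have htt : (t : ℕ) * M = (t' : ℕ) * M := Nat.add_left_cancel heq
    have : (t : ℕ) = (t' : ℕ) := Nat.eq_of_mul_eq_mul_right hMpos htt
    rw [Fin.ext this]

end Pool.Agent.Helper10.SF.CRT
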