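import Pool.Agent.Helper12.SF.Defs

/-!
# Part EULER
-/

set_option autoImplicit false

namespace Pool.Agent.Helper10.SF.EULER

open Pool.Agent.Helper12.SF Filter Topology

lemma fac_nonneg {p : ℕ} (hp : p.Prime) : (0 : ℝ) ≤ 1 - 1 / (p : ℝ) ^ 2 := by
  have h1 : (1 : ℝ) ≤ p := by exact_mod_cast hp.one_lt.le
  have h2 : 1 / (p : ℝ) ^ 2 ≤ 1 := by
    rw [div_le_one (by positivity)]
    exact one_le_pow₀ h1
  linarith

lemma fac_le_one (p : ℕ) : 1 - 1 / (p : ℝ) ^ 2 ≤ 1 := by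
  have : (0 : ℝ) ≤ 1 / (p : ℝ) ^ 2 := by positivity
  linarith

lemma anti : Antitone (fun z => dens (pr z)) := by
  intro z z' hz
  have hsub : pr z ⊆ pr z' := by
    intro p hp
    unfold pr at hp ⊢
    rw [Finset.mem_filter, Finset.mem_range] at hp ⊢
    exact ⟨by omega, hp.2⟩
  simp only
  unfold dens
  rw [← Finset.prod_sdiff hsub]
  have h1 : (∏ p ∈ pr z' \ pr z, (1 - 1 / (p : ℝ) ^ 2)) ≤ 1 := by
    apply Finset.prod_le_one
    · intro p hp
      exact fac_nonneg (Finset.mem_filter.1 (Finset.mem_sdiff.1 hp).1).2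
    · intro p _
      exact fac_le_one p
  have h2 : 0 ≤ ∏ p ∈ pr z, (1 - 1 / (p : ℝ) ^ 2) :=
    Finset.prod_nonneg (fun p hp => fac_nonneg (Finset.mem_filter.1 hp).2)
  exact mul_le_of_le_one_left h2 h1

lemma tend : Tendsto (fun z => dens (pr z)) atTop (𝓝 (6 / Real.pi ^ 2)) := by
  have h0 := (riemannZeta_eulerProduct (s := 2) (by norm_num)).comp (tendsto_add_atTop_nat 1)
  rw [riemannZeta_two] at h0
  have h1 : (fun z : ℕ => (((dens (pr z))⁻¹ : ℝ) : ℂ)) =
      (fun n : ℕ => ∏ p ∈ Nat.primesBelow n, (1 - (p : ℂ) ^ (-2 : ℂ))⁻¹) ∘ fun z => z + 1 := by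
    funext z
    simp only [Function.comp_apply]
    unfold dens
    rw [← Finset.prod_inv_distrib, Complex.ofReal_prod]
    have h2 : pr z = Nat.primesBelow (z + 1) := rfl
    rw [h2]
    apply Finset.prod_congr rfl
    intro p _
    rw [Complex.cpow_neg, Complex.cpow_ofNat]
    push_cast
    simp
  rw [← h1] at h0
  have h2 : Tendsto (fun z : ℕ => (dens (pr z))⁻¹) atTop (𝓝 (Real.pi ^ 2 / 6)) := by
    have h3 : ((Real.pi : ℂ) ^ 2 / 6) = ((Real.pi ^ 2 / 6 : ℝ) : ℂ) := by push_cast; ring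
    rw [h3] at h0
    exact (Complex.continuous_re.tendsto _).comp h0
  have h4 := h2.inv₀ (by positivity)
  simpa using h4

theorem main : S_EULER := by
  refine ⟨fun z => anti.le_of_tendsto tend z, ?_⟩
  intro η hη
  have := tend.eventually (gt_mem_nhds (show 6 / Real.pi ^ 2 < 6 / Real.pi ^ 2 + η by linarith))
  filter_upwards [this] with z hz
  exact hz.le

end Pool.Agent.Helper10.SF.EULER
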